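import Pool.Agent.TH966.KS.Rate

/-!
# Rates for the ratios of sequences with Kesten's inequality: local version, variation
-/

set_option autoImplicit false

namespace X77.RR

open Finset Filter Topology TH966.KS

variable {y : ℕ → ℝ} {D θ : ℝ} {k0 : ℕ}

/-- common quantities -/
theorem common (hD : 0 ≤ D) {k : ℕ} {c : ℝ} (hc0 : 0 < c) (hc1 : c ≤ 1 / 2) (hk8 : 8 ≤ k)
    (hck : 16 * (D + 1) ≤ c * k) : ∃ J : ℕ, c * k / (16 * (D + 1)) ≤ J ∧
      (J : ℝ) ≤ c * k / (8 * (D + 1)) ∧ 2 * (J + 2) ≤ k ∧ 1 ≤ J ∧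
      (1 + 2 * D / k) ^ J ≤ Real.exp (c / 4) := by
  have hkR : (0 : ℝ) < k := by exact_mod_cast (show 0 < k by omega)
  have hJa := Nat.floor_le (show 0 ≤ c * k / (8 * (D + 1)) by positivity)
  have hJb := Nat.lt_floor_add_one (c * k / (8 * (D + 1)))
  set J : ℕ := ⌊c * k / (8 * (D + 1))⌋₊ with hJ
  have h1 : 1 ≤ c * k / (16 * (D + 1)) := (one_le_div (by positivity)).2 hck
  have hJc : c * k / (16 * (D + 1)) ≤ J := by
    have h2 : c * k / (8 * (D + 1)) = c * k / (16 * (D + 1)) + c * k / (16 * (D + 1)) := by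
      field_simp; norm_num
    linarith
  refine ⟨J, hJc, hJa, ?_, ?_, ?_⟩
  · have h1 : c * k / (8 * (D + 1)) ≤ k / 16 := by
      rw [div_le_div_iff₀ (by positivity) (by norm_num)]
      nlinarith
    have h2 : (8 : ℝ) ≤ k := by exact_mod_cast hk8
    have h4 : (2 * (J + 2) : ℝ) ≤ k := by linarith
    exact_mod_cast h4
  · have h7 : (1 : ℝ) ≤ J := h1.trans hJc
    exact_mod_cast h7
  · have h1 : 1 + 2 * D / k ≤ Real.exp (2 * D / k) := by
      rw [add_comm]; exact Real.add_one_le_exp _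
    calc (1 + 2 * D / k) ^ J ≤ Real.exp (2 * D / k) ^ J := pow_le_pow_left₀ (by positivity) h1 J
      _ = Real.exp (J * (2 * D / k)) := by rw [← Real.exp_nat_mul]
      _ ≤ Real.exp (c / 4) := by
        refine Real.exp_le_exp.2 ?_
        have h2 : (J : ℝ) * (2 * D / k) ≤ c * k / (8 * (D + 1)) * (2 * D / k) :=
          mul_le_mul_of_nonneg_right hJa (by positivity)
        refine h2.trans ?_
        have h3 : c * k / (8 * (D + 1)) * (2 * D / k) = c * D / (4 * (D + 1)) := by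
          field_simp
          ring
        rw [h3, div_le_div_iff₀ (by positivity) (by norm_num)]
        nlinarith

theorem exp_quarter {c : ℝ} (hc0 : 0 < c) (hc1 : c ≤ 1 / 2) :
    Real.exp (c / 4) * (1 - c / 4) ≤ 1 ∧ Real.exp (c / 4) ≤ 1 + c / 2 := by
  have hc4 : 0 < 1 - c / 4 := by linarith
  have hexp : Real.exp (c / 4) * (1 - c / 4) ≤ 1 := by
    have h1 := Real.add_one_le_exp (-(c / 4))
    have h2 : Real.exp (c / 4) * Real.exp (-(c / 4)) = 1 := by
      rw [← Real.exp_add, add_neg_cancel, Real.exp_zero]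
    rw [← h2]
    exact mul_le_mul_of_nonneg_left (by linarith) (Real.exp_pos _).le
  refine ⟨hexp, ?_⟩
  have h6 : Real.exp (c / 4) ≤ 1 / (1 - c / 4) := by
    rw [le_div_iff₀ hc4]; exact hexp
  refine h6.trans ?_
  rw [div_le_iff₀ hc4]
  nlinarith

/-- a large ratio gives growth to the right -/
theorem prop_up (hK : Kes y D θ k0) (hy : ∀ k, 0 ≤ y k) (hD : 0 ≤ D) (hθ0 : 0 < θ) (hθ1 : θ < 1)
    {k : ℕ} {c : ℝ} (hc0 : 0 < c) (hc1 : c ≤ 1 / 2) (hk8 : 8 ≤ k) (hk0 : k0 ≤ k)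
    (hck : 16 * (D + 1) ≤ c * k) (hyk : 0 < y k) (hth : θ ^ k ≤ y k)
    (h : (1 + c) * y k < y (k + 1)) :
    ∃ J : ℕ, c * k / (16 * (D + 1)) ≤ J ∧ (J : ℝ) ≤ c * k / (8 * (D + 1)) ∧ 2 * (J + 2) ≤ k ∧
      Real.exp (c / 4 * J) * y k ≤ y (k + J) := by
  obtain ⟨J, hJc, hJd, hJk, hJ1, hgJ⟩ := common hD hc0 hc1 hk8 hck
  obtain ⟨hexp, hq⟩ := exp_quarter hc0 hc1
  have hkR : (0 : ℝ) < k := by exact_mod_cast (show 0 < k by omega)
  have hgk : 1 + D / (k : ℝ) ≤ 1 + 2 * D / k := by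
    have : D / k ≤ 2 * D / k := div_le_div_of_nonneg_right (by linarith) hkR.le
    linarith
  refine ⟨J, hJc, hJd, hJk, ?_⟩
  have h2 := (fwd2 (g := 1 + 2 * D / k) (k := k) (J := J) (ρ := 1 + c) (q := 1 + c / 2) hK hy hD
      hθ0 hθ1 hk0 (by omega) hgk (by linarith) (by
        have h9 : (1 + c / 2) * (1 + 2 * D / k) ^ J ≤ (1 + c / 2) * Real.exp (c / 4) :=
          mul_le_mul_of_nonneg_left hgJ (by linarith)
        refine h9.trans ?_
        have h10 : 1 + c / 2 ≤ (1 + c) * (1 - c / 4) := by nlinarith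
        calc (1 + c / 2) * Real.exp (c / 4) ≤ ((1 + c) * (1 - c / 4)) * Real.exp (c / 4) :=
              mul_le_mul_of_nonneg_right h10 (Real.exp_pos _).le
          _ = (1 + c) * (Real.exp (c / 4) * (1 - c / 4)) := by ring
          _ ≤ (1 + c) * 1 := mul_le_mul_of_nonneg_left hexp (by linarith)
          _ = 1 + c := mul_one _) hyk h.le
      ((pow_le_pow_of_le_one hθ0.le hθ1.le (by omega)).trans hth) J le_rfl).1
  refine le_trans (mul_le_mul_of_nonneg_right ?_ hyk.le) h2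
  rw [mul_comm, Real.exp_nat_mul]
  exact pow_le_pow_left₀ (Real.exp_pos _).le hq J

/-- a small ratio gives growth to the left -/
theorem prop_down (hK : Kes y D θ k0) (hy : ∀ k, 0 ≤ y k) (hD : 0 ≤ D) (hθ0 : 0 < θ) (hθ1 : θ < 1)
    {k : ℕ} {c : ℝ} (hc0 : 0 < c) (hc1 : c ≤ 1 / 2) (hk8 : 8 ≤ k) (hk0 : 2 * k0 ≤ k)
    (hck : 16 * (D + 1) ≤ c * k) (hyk : 0 < y k) (hth : θ ^ k ≤ y k)
    (h : y (k + 1) < (1 - c) * y k) :
    ∃ J : ℕ, c * k / (16 * (D + 1)) ≤ J ∧ (J : ℝ) ≤ c * k / (8 * (D + 1)) ∧ 2 * (J + 2) ≤ k ∧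
      Real.exp (c / 4 * J) * y k ≤ y (k - J) := by
  obtain ⟨J, hJc, hJd, hJk, hJ1, hgJ⟩ := common hD hc0 hc1 hk8 hck
  obtain ⟨hexp, hq⟩ := exp_quarter hc0 hc1
  have hkR : (0 : ℝ) < k := by exact_mod_cast (show 0 < k by omega)
  refine ⟨J, hJc, hJd, hJk, ?_⟩
  obtain ⟨b, hb⟩ : ∃ b, k = b + J := ⟨k - J, by omega⟩
  have hbk : k ≤ 2 * b := by omega
  have hbR : (0 : ℝ) < b := by exact_mod_cast (show 0 < b by omega)
  set g : ℝ := 1 + 2 * D / k with hg
  have hg1 : 1 ≤ g := by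
    have : 0 ≤ 2 * D / k := by positivity
    rw [hg]; linarith
  have hgb : 1 + D / (b : ℝ) ≤ g := by
    rw [hg]
    have h3 : (k : ℝ) ≤ 2 * b := by exact_mod_cast hbk
    have : D / (b : ℝ) ≤ 2 * D / k := by
      rw [div_le_div_iff₀ hbR hkR]
      nlinarith
    linarith
  obtain ⟨m, hm⟩ : ∃ m, k = m + 1 := ⟨k - 1, by omega⟩
  have hθm : θ ^ (2 * m + 2) ≤ y (m + 1) := by
    rw [← hm]
    exact (pow_le_pow_of_le_one hθ0.le hθ1.le (by omega)).trans hth
  have hKm := hK m (by omega) hθm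
  have hgm : 1 + D / (m : ℝ) ≤ g := g_anti hD (show 0 < b by omega) (by omega) hgb
  have hKm2 : y (m + 1) ^ 2 ≤ y m * y (m + 2) * g :=
    hKm.trans (mul_le_mul_of_nonneg_left hgm (mul_nonneg (hy _) (hy _)))
  have e6 : m + 2 = k + 1 := by omega
  rw [e6, ← hm] at hKm2
  have h5 : y k ≤ ((1 - c) * g) * y m := by
    have h6 : y k * y k ≤ (((1 - c) * g) * y m) * y k := by
      calc y k * y k = y k ^ 2 := by ring
        _ ≤ y m * y (k + 1) * g := hKm2
        _ ≤ y m * ((1 - c) * y k) * g := mul_le_mul_of_nonneg_right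
          (mul_le_mul_of_nonneg_left h.le (hy _)) (by linarith)
        _ = _ := by ring
    exact le_of_mul_le_mul_right h6 hyk
  have hb2 := bwd2 (g := g) (b := b) (a := J - 1) (σ := (1 - c) * g) (q := 1 + c / 2) hK hy hD
      hθ0 hθ1 (by omega) (by omega) hgb (mul_nonneg (by linarith) (by linarith)) (by linarith) (by
        have h8 : (1 - c) * g * g ^ (J - 1) = (1 - c) * g ^ J := by
          rw [mul_assoc, ← pow_succ', Nat.sub_add_cancel hJ1]
        rw [h8]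
        have h9 : (1 + c / 2) * ((1 - c) * g ^ J) ≤ (1 + c / 2) * ((1 - c) * Real.exp (c / 4)) :=
          mul_le_mul_of_nonneg_left (mul_le_mul_of_nonneg_left hgJ (by linarith)) (by linarith)
        refine h9.trans ?_
        have h10 : (1 + c / 2) * (1 - c) ≤ 1 - c / 4 := by nlinarith
        calc (1 + c / 2) * ((1 - c) * Real.exp (c / 4)) = ((1 + c / 2) * (1 - c)) *
              Real.exp (c / 4) := by ring
          _ ≤ (1 - c / 4) * Real.exp (c / 4) :=
            mul_le_mul_of_nonneg_right h10 (Real.exp_pos _).le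
          _ ≤ 1 := by rw [mul_comm]; exact hexp)
      (by rw [show b + (J - 1) + 1 = k by omega]; exact hyk)
      (by
        rw [show b + (J - 1) + 1 = k by omega, show b + (J - 1) = m by omega]
        exact h5)
      (by
        rw [show b + (J - 1) + 1 = k by omega]
        exact (pow_le_pow_of_le_one hθ0.le hθ1.le (by omega)).trans hth) (J - 1) 0 (by omega)
  have h11 := hb2.1
  rw [show b + (J - 1) + 1 = k by omega, Nat.sub_add_cancel hJ1, add_zero] at h11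
  rw [show k - J = b by omega]
  refine le_trans (mul_le_mul_of_nonneg_right ?_ hyk.le) h11
  rw [mul_comm, Real.exp_nat_mul]
  exact pow_le_pow_left₀ (Real.exp_pos _).le hq J

/-- the two-sided statement: a large deviation of the ratio gives a large value nearby -/
theorem dev (hK : Kes y D θ k0) (hy : ∀ k, 0 ≤ y k) (hD : 0 ≤ D) (hθ0 : 0 < θ) (hθ1 : θ < 1)
    {k : ℕ} {c : ℝ} (hc0 : 0 < c) (hc1 : c ≤ 1 / 2) (hk8 : 8 ≤ k) (hk0 : 2 * k0 ≤ k)
    (hck : 16 * (D + 1) ≤ c * k) (hyk : 0 < y k) (hth : θ ^ k ≤ y k)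
    (h : c < |y (k + 1) / y k - 1|) :
    ∃ J i : ℕ, c * k / (16 * (D + 1)) ≤ J ∧ (J : ℝ) ≤ c * k / (8 * (D + 1)) ∧ 2 * (J + 2) ≤ k ∧
      (i = k + J ∨ i + J = k) ∧ Real.exp (c / 4 * J) * y k ≤ y i := by
  rcases lt_abs.1 h with h1 | h1
  · have h2 : (1 + c) * y k < y (k + 1) := by
      rw [← lt_div_iff₀ hyk]; linarith
    obtain ⟨J, a1, a2, a3, a4⟩ := prop_up hK hy hD hθ0 hθ1 hc0 hc1 hk8 (by omega) hck hyk hth h2
    exact ⟨J, k + J, a1, a2, a3, Or.inl rfl, a4⟩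
  · have h2 : y (k + 1) < (1 - c) * y k := by
      rw [← div_lt_iff₀ hyk]; linarith
    obtain ⟨J, a1, a2, a3, a4⟩ := prop_down hK hy hD hθ0 hθ1 hc0 hc1 hk8 hk0 hck hyk hth h2
    exact ⟨J, k - J, a1, a2, a3, Or.inr (by omega), a4⟩

/-- the local rate -/
theorem local_rate (hK : Kes y D θ k0) (hy : ∀ k, 0 ≤ y k) (hD : 0 ≤ D) (hθ0 : 0 < θ)
    (hθ1 : θ < 1) : ∃ (R δ : ℝ) (N : ℕ), 0 < R ∧ 0 < δ ∧ ∀ k : ℕ, N ≤ k → ∀ E : ℝ, 1 ≤ E →
      E ≤ δ * k → Real.exp (-(δ * k)) ≤ y k →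
      (∀ i : ℕ, k ≤ 2 * i → i ≤ 2 * k → y i ≤ Real.exp E * y k) →
      |y (k + 1) / y k - 1| ≤ R * √(E / k) := by
  set R : ℝ := √(65 * (D + 1)) with hR
  have hR0 : 0 < R := Real.sqrt_pos.2 (by positivity)
  have hRsq : R ^ 2 = 65 * (D + 1) := Real.sq_sqrt (by positivity)
  have hlθ : 0 < Real.log (1 / θ) := Real.log_pos (by rw [lt_div_iff₀ hθ0]; linarith)
  have ev3 : ∀ᶠ k : ℕ in atTop, 16 * (D + 1) ≤ R * √(k : ℝ) := by
    have h1 : Tendsto (fun n : ℕ => R * √(n : ℝ)) atTop atTop :=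
      (Real.tendsto_sqrt_atTop.comp tendsto_natCast_atTop_atTop).const_mul_atTop hR0
    exact h1.eventually_ge_atTop _
  obtain ⟨N, hN⟩ := eventually_atTop.1 (ev3.and (eventually_ge_atTop (2 * k0 + 8)))
  refine ⟨R, min (1 / (4 * R ^ 2)) (Real.log (1 / θ)), N, hR0, lt_min (by positivity) hlθ, ?_⟩
  intro k hk E hE1 hE2 hyk hloc
  obtain ⟨e3, hk8⟩ := hN k hk
  have hkR : (0 : ℝ) < k := by exact_mod_cast (show 0 < k by omega)
  have hyk0 : 0 < y k := lt_of_lt_of_le (Real.exp_pos _) hyk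
  have hE0 : 0 < E := by linarith
  by_contra hcon
  rw [not_le] at hcon
  set c : ℝ := R * √(E / k) with hc
  have hc0 : 0 < c := mul_pos hR0 (Real.sqrt_pos.2 (by positivity))
  have hcsq : c ^ 2 * k = 65 * (D + 1) * E := by
    have h0 : √(E / k) ^ 2 = E / k := Real.sq_sqrt (by positivity)
    rw [hc, mul_pow, h0, hRsq]
    field_simp
  have hδ1 : E ≤ 1 / (4 * R ^ 2) * k :=
    hE2.trans (mul_le_mul_of_nonneg_right (min_le_left _ _) hkR.le)
  have hc1 : c ≤ 1 / 2 := by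
    have h1 : c ^ 2 ≤ (1 / 2) ^ 2 := by
      have h2 : c ^ 2 = R ^ 2 * (E / k) := by
        have h0 : √(E / k) ^ 2 = E / k := Real.sq_sqrt (by positivity)
        rw [hc, mul_pow, h0]
      rw [h2]
      have h3 : E / k ≤ 1 / (4 * R ^ 2) := by
        rw [div_le_iff₀ hkR]; exact hδ1
      calc R ^ 2 * (E / k) ≤ R ^ 2 * (1 / (4 * R ^ 2)) :=
            mul_le_mul_of_nonneg_left h3 (by positivity)
        _ = (1 / 2) ^ 2 := by
          have hR2 : R ^ 2 ≠ 0 := by positivity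
          field_simp
          ring
    exact le_of_sq_le_sq h1 (by norm_num)
  have hck : 16 * (D + 1) ≤ c * k := by
    refine e3.trans ?_
    have h1 : √(E / k) * k = √E * √(k : ℝ) := by
      rw [Real.sqrt_div (by positivity)]
      have h2 : (k : ℝ) = √(k : ℝ) * √(k : ℝ) := (Real.mul_self_sqrt hkR.le).symm
      have h3 : √(k : ℝ) ≠ 0 := (Real.sqrt_pos.2 hkR).ne'
      rw [div_mul_eq_mul_div, div_eq_iff h3, mul_assoc, ← h2]
    rw [hc, mul_assoc, h1]
    exact mul_le_mul_of_nonneg_left (le_mul_of_one_le_left (Real.sqrt_nonneg _)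
      (Real.one_le_sqrt.2 hE1)) hR0.le
  have hth : θ ^ k ≤ y k := by
    refine le_trans ?_ hyk
    have h1 : θ ^ k = Real.exp (-(k * Real.log (1 / θ))) := by
      rw [one_div, Real.log_inv, mul_neg, neg_neg, Real.exp_nat_mul, Real.exp_log hθ0]
    rw [h1]
    refine Real.exp_le_exp.2 ?_
    have h2 : min (1 / (4 * R ^ 2)) (Real.log (1 / θ)) * k ≤ Real.log (1 / θ) * k :=
      mul_le_mul_of_nonneg_right (min_le_right _ _) hkR.le
    linarith
  obtain ⟨J, i, a1, -, a3, a4, a5⟩ := dev hK hy hD hθ0 hθ1 hc0 hc1 (by omega) (by omega) hck hyk0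
    hth hcon
  have h1 : y i ≤ Real.exp E * y k := hloc i (by omega) (by omega)
  have h2 : Real.exp (c / 4 * J) ≤ Real.exp E := le_of_mul_le_mul_right (a5.trans h1) hyk0
  have h3 := Real.exp_le_exp.1 h2
  have h8 : c / 4 * (c * k / (16 * (D + 1))) ≤ c / 4 * J :=
    mul_le_mul_of_nonneg_left a1 (by positivity)
  have h9 : c / 4 * (c * k / (16 * (D + 1))) = 65 / 64 * E := by
    have : c / 4 * (c * k / (16 * (D + 1))) = (c ^ 2 * k) / (64 * (D + 1)) := by
      field_simp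
      ring
    rw [this, hcsq]
    field_simp
  linarith

/-- the threshold holds eventually -/
theorem thr (hθ0 : 0 < θ) (hθ1 : θ < 1) (hy0 : ∀ᶠ k : ℕ in atTop, 0 < y k)
    (hlog : Tendsto (fun k : ℕ => Real.log (y k) / k) atTop (𝓝 0)) {δ : ℝ} (hδ : 0 < δ) :
    ∀ᶠ k : ℕ in atTop, 0 < y k ∧ θ ^ k ≤ y k ∧ Real.exp (-(δ * k)) ≤ y k := by
  have hlθ : 0 < Real.log (1 / θ) := Real.log_pos (by rw [lt_div_iff₀ hθ0]; linarith)
  have h1 := hlog.eventually (lt_mem_nhds (show -min δ (Real.log (1 / θ)) < 0 by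
    have := lt_min hδ hlθ; linarith))
  filter_upwards [h1, hy0, eventually_gt_atTop 0] with k h2 h3 h4
  have hkR : (0 : ℝ) < k := by exact_mod_cast h4
  rw [lt_div_iff₀ hkR] at h2
  have h5 : min δ (Real.log (1 / θ)) * k ≤ δ * k :=
    mul_le_mul_of_nonneg_right (min_le_left _ _) hkR.le
  have h6 : min δ (Real.log (1 / θ)) * k ≤ Real.log (1 / θ) * k :=
    mul_le_mul_of_nonneg_right (min_le_right _ _) hkR.le
  refine ⟨h3, ?_, ?_⟩
  · have h7 : θ ^ k = Real.exp (-(k * Real.log (1 / θ))) := by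
      rw [one_div, Real.log_inv, mul_neg, neg_neg, Real.exp_nat_mul, Real.exp_log hθ0]
    rw [h7, ← Real.le_log_iff_exp_le h3]
    linarith
  · rw [← Real.le_log_iff_exp_le h3]
    linarith

/-- the ratios have bounded variation -/
theorem variation (hK : Kes y D θ k0) (hD : 0 ≤ D) (hθ0 : 0 < θ)
    (hθ1 : θ < 1) (hy0 : ∀ᶠ k : ℕ in atTop, 0 < y k)
    (hlog : Tendsto (fun k : ℕ => Real.log (y k) / k) atTop (𝓝 0))
    (hr : Tendsto (fun k : ℕ => y (k + 1) / y k) atTop (𝓝 1)) {ε : ℝ} (hε : 0 < ε) :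
    ∃ N : ℕ, ∀ j k : ℕ, N ≤ j → j ≤ k →
      ∑ i ∈ Finset.Ico j k, |Real.log (y (i + 1) ^ 2 / (y i * y (i + 2)))| ≤
        ε + 2 * D * ((k : ℝ) - j) / j := by
  have ht : Tendsto (fun k : ℕ => Real.log (y (k + 1) / y k)) atTop (𝓝 0) := by
    have := hr.log one_ne_zero
    rwa [Real.log_one] at this
  have h1 := ht.abs
  rw [abs_zero] at h1
  obtain ⟨N, hN⟩ := eventually_atTop.1 ((h1.eventually_lt_const (half_pos hε)).and
    ((thr hθ0 hθ1 hy0 hlog one_pos).and (eventually_ge_atTop (k0 + 1))))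
  refine ⟨N, fun j k hj hjk => ?_⟩
  have hjR : (0 : ℝ) < j := by
    have := (hN j hj).2.2
    exact_mod_cast (show 0 < j by omega)
  set t : ℕ → ℝ := fun i => Real.log (y (i + 1) / y i) with htdef
  have key : ∀ m : ℕ, j ≤ m → ∑ i ∈ Finset.Ico j m,
      |Real.log (y (i + 1) ^ 2 / (y i * y (i + 2)))| ≤ t m - t j + 2 * D * ((m : ℝ) - j) / j := by
    intro m hm
    induction m, hm using Nat.le_induction with
    | base => simp
    | succ m hm ih =>
      rw [Finset.sum_Ico_succ_top hm]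
      obtain ⟨-, ⟨p0, -, -⟩, hk0⟩ := hN m (by omega)
      obtain ⟨-, ⟨p1, q1, -⟩, -⟩ := hN (m + 1) (by omega)
      obtain ⟨-, ⟨p2, -, -⟩, -⟩ := hN (m + 2) (by omega)
      have hmR : (0 : ℝ) < m := by exact_mod_cast (show 0 < m by omega)
      have hjm : (j : ℝ) ≤ m := by exact_mod_cast hm
      have h2 := hK m (by omega) ((pow_le_pow_of_le_one hθ0.le hθ1.le (by omega)).trans q1)
      have h3 : Real.log (y (m + 1) ^ 2 / (y m * y (m + 2))) ≤ D / m := by
        have h4 : y (m + 1) ^ 2 / (y m * y (m + 2)) ≤ 1 + D / m := by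
          rw [div_le_iff₀ (mul_pos p0 p2)]
          calc _ ≤ _ := h2
            _ = _ := by ring
        have h5 : 0 < y (m + 1) ^ 2 / (y m * y (m + 2)) := by positivity
        calc Real.log (y (m + 1) ^ 2 / (y m * y (m + 2))) ≤ Real.log (1 + D / m) :=
              Real.log_le_log h5 h4
          _ ≤ (1 + D / m) - 1 := Real.log_le_sub_one_of_pos (by positivity)
          _ = D / m := by ring
      have h6 : Real.log (y (m + 1) ^ 2 / (y m * y (m + 2))) = t m - t (m + 1) := by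
        simp only [htdef]
        rw [Real.log_div (by positivity) (by positivity), Real.log_pow,
          Real.log_mul p0.ne' p2.ne', Real.log_div p1.ne' p0.ne', Real.log_div p2.ne' p1.ne']
        push_cast
        ring
      have h7 : |Real.log (y (m + 1) ^ 2 / (y m * y (m + 2)))| ≤
          (t (m + 1) - t m) + 2 * (D / m) := by
        rw [abs_le]
        constructor
        · rw [h6] at h3 ⊢
          have : 0 ≤ D / (m : ℝ) := by positivity
          linarith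
        · rw [h6] at h3 ⊢
          linarith
      have h8 : D / (m : ℝ) ≤ D / j := div_le_div_of_nonneg_left hD hjR hjm
      have h9 : 2 * D * (((m + 1 : ℕ) : ℝ) - j) / j = 2 * D * ((m : ℝ) - j) / j + 2 * (D / j) := by
        push_cast
        field_simp
        ring
      rw [h9]
      linarith
  have h2 := key k hjk
  have h3 := (hN k (by omega)).1
  have h4 := (hN j hj).1
  have h5 : t k - t j ≤ ε := by
    have a1 := (abs_lt.1 h3).2
    have a2 := (abs_lt.1 h4).1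
    simp only [htdef]
    linarith
  linarith

end X77.RR
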