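import Pool.Agent.X77.RR.Main

/-!
# Rates for the ratios if a power law holds
-/

set_option autoImplicit false

namespace X77.RR

open Finset Filter Topology TH966.KS KN KN.KQ

theorem exp_small {A δ : ℝ} (hA : 0 < A) (hδ : 0 < δ) (s : ℝ) : ∀ᶠ k : ℕ in atTop,
    Real.exp (-(δ * k)) ≤ A * (2 * k : ℝ) ^ s := by
  have ht : Tendsto (fun k : ℕ => (2 * k : ℝ)) atTop atTop :=
    Tendsto.const_mul_atTop (by norm_num) tendsto_natCast_atTop_atTop
  have h1 := ((isLittleO_rpow_exp_pos_mul_atTop (-s) (half_pos hδ)).comp_tendsto ht).def hA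
  filter_upwards [h1, eventually_gt_atTop 0] with k h2 h3
  have hk0 : (0 : ℝ) < 2 * k := by
    have : (0 : ℝ) < k := by exact_mod_cast h3
    linarith
  simp only [Function.comp, Real.norm_eq_abs] at h2
  rw [abs_of_pos (Real.rpow_pos_of_pos hk0 _), abs_of_pos (Real.exp_pos _),
    Real.rpow_neg hk0.le] at h2
  have h4 : 0 < (2 * k : ℝ) ^ s := Real.rpow_pos_of_pos hk0 _
  have e : δ / 2 * (2 * (k : ℝ)) = δ * k := by ring
  rw [e] at h2
  rw [Real.exp_neg]
  have h5 : 0 < Real.exp (δ * (k : ℝ)) := Real.exp_pos _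
  rw [inv_le_iff_one_le_mul₀ h4] at h2
  rw [inv_le_iff_one_le_mul₀ h5]
  calc (1 : ℝ) ≤ A * Real.exp (δ * (k : ℝ)) * (2 * k : ℝ) ^ s := h2
    _ = _ := by ring

/-- two-sided bounds -/
theorem bounds_rate {Q : List Dir → Prop} (hQ : KClass Q) (hne : ∃ w, SAP w ∧ Q w)
    {β c₁ c₂ : ℝ} (hc : 0 < c₁) (h : ∀ᶠ k : ℕ in atTop,
      c₁ ≤ pq Q (2 * k) / ((2 * k : ℝ) ^ β * gr Q ^ (2 * k)) ∧
      pq Q (2 * k) / ((2 * k : ℝ) ^ β * gr Q ^ (2 * k)) ≤ c₂) :
    ∃ R : ℝ, ∀ᶠ k : ℕ in atTop,
      |pq Q (2 * k + 2) / pq Q (2 * k) - gr Q ^ 2| ≤ R / √k := by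
  obtain ⟨h1, -, h5⟩ := gr_bounds Q hQ hne
  have hg : 0 < gr Q := by linarith
  obtain ⟨R, δ, N, hR, hδ, hloc⟩ := class_local hQ hne
  simp only [yq_form] at h
  obtain ⟨N1, hN1⟩ := eventually_atTop.1 h
  have hc2 : 0 < c₂ := by
    obtain ⟨a1, a2⟩ := hN1 N1 le_rfl
    linarith
  set M : ℝ := c₂ / c₁ * 2 ^ |β| with hM
  have hM0 : 0 < M := by positivity
  set E : ℝ := 1 + |Real.log M| with hE
  have hE1 : 1 ≤ E := by rw [hE]; linarith [abs_nonneg (Real.log M)]
  refine ⟨R * √E, ?_⟩
  have ev1 : ∀ᶠ k : ℕ in atTop, E ≤ δ * k :=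
    (tendsto_natCast_atTop_atTop.const_mul_atTop hδ).eventually_ge_atTop E
  filter_upwards [ev1, exp_small hc hδ β, eventually_ge_atTop (N + 2 * N1 + 1)] with k e1 e2 e3
  have hkR : (0 : ℝ) < k := by exact_mod_cast (show 0 < k by omega)
  have h2k : (0 : ℝ) < 2 * k := by linarith
  have hp : ∀ i : ℕ, 0 < i → 0 < (2 * i : ℝ) ^ β := by
    intro i hi
    have : (0 : ℝ) < i := by exact_mod_cast hi
    exact Real.rpow_pos_of_pos (by linarith) _
  have hlow : c₁ * (2 * k : ℝ) ^ β ≤ yq Q k := by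
    have := (hN1 k (by omega)).1
    rwa [le_div_iff₀ (hp k (by omega))] at this
  have h2 := hloc k (by omega) E hE1 e1 (e2.trans hlow) (by
    intro i hi1 hi2
    have hi0 : 0 < i := by omega
    have hiR : (0 : ℝ) < i := by exact_mod_cast hi0
    have h3 := (hN1 i (by omega)).2
    rw [div_le_iff₀ (hp i hi0)] at h3
    have h4 : (2 * i : ℝ) ^ β ≤ 2 ^ |β| * (2 * k : ℝ) ^ β := by
      have e : (2 * i : ℝ) = (i / k) * (2 * k) := by field_simp
      rw [e, Real.mul_rpow (by positivity) h2k.le]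
      refine mul_le_mul_of_nonneg_right ?_ (hp k (by omega)).le
      have hq1 : (i / k : ℝ) ≤ 2 := by
        rw [div_le_iff₀ hkR]; exact_mod_cast hi2
      have hq2 : (1 / 2 : ℝ) ≤ i / k := by
        rw [le_div_iff₀ hkR]
        have : (k : ℝ) ≤ 2 * i := by exact_mod_cast hi1
        linarith
      rcases le_or_gt 0 β with hb | hb
      · rw [abs_of_nonneg hb]
        exact Real.rpow_le_rpow (by positivity) hq1 hb
      · rw [abs_of_neg hb]
        calc (i / k : ℝ) ^ β ≤ (1 / 2 : ℝ) ^ β :=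
              Real.rpow_le_rpow_of_nonpos (by norm_num) hq2 hb.le
          _ = 2 ^ (-β) := by
              rw [one_div, Real.inv_rpow (by norm_num), ← Real.rpow_neg (by norm_num)]
    have h6 : M ≤ Real.exp E := by
      rw [← Real.log_le_iff_le_exp hM0, hE]
      linarith [le_abs_self (Real.log M)]
    calc yq Q i ≤ c₂ * (2 * i : ℝ) ^ β := h3
      _ ≤ c₂ * (2 ^ |β| * (2 * k : ℝ) ^ β) := mul_le_mul_of_nonneg_left h4 hc2.le
      _ = M * (c₁ * (2 * k : ℝ) ^ β) := by rw [hM]; field_simp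
      _ ≤ M * yq Q k := mul_le_mul_of_nonneg_left hlow hM0.le
      _ ≤ Real.exp E * yq Q k :=
        mul_le_mul_of_nonneg_right h6 (le_trans (by positivity) hlow))
  refine h2.trans (le_of_eq ?_)
  rw [Real.sqrt_div (by linarith), mul_div_assoc]

/-- the asymptotic form -/
theorem form_rate {Q : List Dir → Prop} (hQ : KClass Q) (hne : ∃ w, SAP w ∧ Q w)
    {β A : ℝ} (hA : 0 < A) (h : Tendsto (fun k : ℕ =>
      pq Q (2 * k) / ((2 * k : ℝ) ^ β * gr Q ^ (2 * k))) atTop (𝓝 A)) :
    Tendsto (fun k : ℕ => √(k : ℝ) * (pq Q (2 * k + 2) / pq Q (2 * k) - gr Q ^ 2)) atTop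
      (𝓝 0) := by
  obtain ⟨h1, -, h5⟩ := gr_bounds Q hQ hne
  have hg : 0 < gr Q := by linarith
  obtain ⟨D, θ, k0, hD, hθ0, hθ1, hK⟩ := kes_yq Q hQ hne
  simp only [yq_form] at h
  have hpos := yq_pos hQ hne
  -- the logarithms
  have hz : Tendsto (fun k : ℕ => Real.log (yq Q k) - (β * Real.log (2 * k) + Real.log A)) atTop
      (𝓝 0) := by
    have h2 : Tendsto (fun k : ℕ => Real.log (yq Q k / (2 * k : ℝ) ^ β / A)) atTop
        (𝓝 (Real.log (A / A))) := by
      refine Tendsto.log (h.div_const A) ?_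
      rw [div_self hA.ne']; norm_num
    rw [div_self hA.ne', Real.log_one] at h2
    refine h2.congr' ?_
    filter_upwards [hpos, eventually_gt_atTop 0] with k h3 h4
    exact log_form h4 h3 hA
  have hthr : ∀ᶠ k : ℕ in atTop, θ ^ k ≤ yq Q k := by
    have hlθ : 0 < Real.log (1 / θ) := Real.log_pos (by rw [lt_div_iff₀ hθ0]; linarith)
    filter_upwards [exp_small (half_pos hA) hlθ β, h.eventually (lt_mem_nhds
      (show A / 2 < A by linarith)), eventually_gt_atTop 0] with k e1 e2 e3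
    have hk0 : (0 : ℝ) < 2 * k := by
      have : (0 : ℝ) < k := by exact_mod_cast e3
      linarith
    rw [lt_div_iff₀ (Real.rpow_pos_of_pos hk0 _)] at e2
    have h7 : θ ^ k = Real.exp (-(Real.log (1 / θ) * k)) := by
      rw [one_div, Real.log_inv, neg_mul, neg_neg, mul_comm, Real.exp_nat_mul, Real.exp_log hθ0]
    rw [h7]
    exact e1.trans e2.le
  rw [Metric.tendsto_atTop']
  intro ε hε
  set η : ℝ := ε / 26 with hη
  have hη0 : 0 < η := by positivity
  set τ : ℝ := η ^ 2 / (64 * (D + 1)) with hτ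
  have hτ0 : 0 < τ := by positivity
  have hsq : Tendsto (fun k : ℕ => √(k : ℝ)) atTop atTop :=
    Real.tendsto_sqrt_atTop.comp tendsto_natCast_atTop_atTop
  have hza := hz.abs
  rw [abs_zero] at hza
  obtain ⟨N, hN⟩ := eventually_atTop.1 ((hza.eventually_lt_const (show 0 < τ / 4 by positivity)).and
    (hpos.and (hthr.and ((hsq.eventually_ge_atTop (2 * η + 16 * (D + 1) / η +
      2 * |β| * η / τ + 1)).and (eventually_ge_atTop (2 * k0 + 8))))))
  refine ⟨2 * N, fun k hk => ?_⟩
  obtain ⟨-, a2, a3, a4, a5⟩ := hN k (by omega)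
  have hkR : (0 : ℝ) < k := by exact_mod_cast (show 0 < k by omega)
  have hs0 : 0 < √(k : ℝ) := Real.sqrt_pos.2 hkR
  have hss : √(k : ℝ) * √(k : ℝ) = k := Real.mul_self_sqrt hkR.le
  rw [dist_zero_right, Real.norm_eq_abs, abs_mul, abs_of_pos hs0]
  have key : |yq Q (k + 1) / yq Q k - 1| ≤ η / √k := by
    by_contra hcon
    rw [not_le] at hcon
    set c : ℝ := η / √k with hc
    have hc0 : 0 < c := by positivity
    have b1 : 0 ≤ 16 * (D + 1) / η := by positivity
    have b2 : 0 ≤ 2 * |β| * η / τ := by positivity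
    have hc1 : c ≤ 1 / 2 := by
      rw [hc, div_le_iff₀ hs0]
      linarith
    have hck : 16 * (D + 1) ≤ c * k := by
      have h2 : c * k = η * √k := by
        rw [hc, div_mul_eq_mul_div, div_eq_iff hs0.ne', mul_assoc, hss]
      rw [h2]
      have h3 : 16 * (D + 1) / η ≤ √k := by linarith
      rwa [div_le_iff₀' hη0] at h3
    obtain ⟨J, i, j1, j2, j3, j4, j5⟩ := dev hK (yq_nonneg Q hg.le) hD hθ0 hθ1 hc0 hc1 (by omega)
      (by omega) hck a2 a3 hcon
    have hi : k ≤ 2 * i ∧ i ≤ 2 * k := by omega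
    obtain ⟨b3, b4, -, -, -⟩ := hN i (by omega)
    have b5 := (hN k (by omega)).1
    have hJ1 : τ ≤ c / 4 * J := by
      have h2 : c / 4 * (c * k / (16 * (D + 1))) ≤ c / 4 * J :=
        mul_le_mul_of_nonneg_left j1 (by positivity)
      have h3 : c / 4 * (c * k / (16 * (D + 1))) = τ := by
        rw [hτ]
        have h4 : c ^ 2 * k = η ^ 2 := by
          rw [hc, div_pow, Real.sq_sqrt hkR.le]; field_simp
        rw [← h4]
        field_simp
        ring
      linarith
    have hJ2 : (J : ℝ) ≤ η * √k / 8 := by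
      refine j2.trans ?_
      have h2 : c * k = η * √k := by
        rw [hc, div_mul_eq_mul_div, div_eq_iff hs0.ne', mul_assoc, hss]
      rw [h2]
      exact div_le_div_of_nonneg_left (by positivity) (by norm_num) (by linarith)
    have h6 : c / 4 * J ≤ Real.log (yq Q i) - Real.log (yq Q k) := by
      have h7 := Real.log_le_log (mul_pos (Real.exp_pos _) a2) j5
      rw [Real.log_mul (Real.exp_pos _).ne' a2.ne', Real.log_exp] at h7
      linarith
    -- the change of the main term
    have h8 : |(β * Real.log (2 * i) + Real.log A) - (β * Real.log (2 * k) + Real.log A)| ≤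
        |β| * (2 * J / k) := by
      rcases j4 with h9 | h9
      · have h10 := log_diff β (Real.log A) k i (by omega) (by omega)
        refine h10.trans ?_
        rw [h9]
        push_cast
        rw [mul_div_assoc]
        refine mul_le_mul_of_nonneg_left ?_ (abs_nonneg _)
        refine div_le_div_of_nonneg_right ?_ hkR.le
        have : (0 : ℝ) ≤ J := Nat.cast_nonneg _
        linarith
      · have h10 := log_diff β (Real.log A) i k (by omega) (by omega)
        rw [abs_sub_comm] at h10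
        refine h10.trans ?_
        have h11 : (k : ℝ) = i + J := by exact_mod_cast h9.symm
        have hiR : (0 : ℝ) < i := by exact_mod_cast (show 0 < i by omega)
        rw [mul_div_assoc]
        refine mul_le_mul_of_nonneg_left ?_ (abs_nonneg _)
        rw [div_le_div_iff₀ hiR hkR]
        have h12 : (k : ℝ) ≤ 2 * i := by exact_mod_cast hi.1
        have h13 : (0 : ℝ) ≤ J := Nat.cast_nonneg _
        have h14 : (k : ℝ) - i = J := by linarith
        rw [h14]
        nlinarith
    have h9 : |β| * (2 * J / k) ≤ τ / 4 := by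
      have h10 : (2 * (J : ℝ) / k) ≤ η / (4 * √k) := by
        rw [div_le_div_iff₀ hkR (by positivity)]
        calc 2 * (J : ℝ) * (4 * √k) ≤ 2 * (η * √k / 8) * (4 * √k) := by
              refine mul_le_mul_of_nonneg_right (by linarith) (by positivity)
          _ = η * (√k * √k) := by ring
          _ = η * k := by rw [hss]
      have h11 : 2 * |β| * η / τ ≤ √k := by linarith
      rw [div_le_iff₀ hτ0] at h11
      refine (mul_le_mul_of_nonneg_left h10 (abs_nonneg β)).trans ?_
      rw [mul_div_assoc', div_le_div_iff₀ (by positivity) (by norm_num)]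
      have : 0 ≤ |β| * η := by positivity
      nlinarith
    have b3' := abs_lt.1 b3
    have b5' := abs_lt.1 b5
    have h8' := abs_le.1 h8
    linarith [b3'.2, b5'.1, h8'.2]
  have h2 := ratio_abs Q hg h5 a2
  calc √(k : ℝ) * |pq Q (2 * k + 2) / pq Q (2 * k) - gr Q ^ 2|
      ≤ √(k : ℝ) * (25 * (η / √k)) := by
        refine mul_le_mul_of_nonneg_left (h2.trans ?_) hs0.le
        exact mul_le_mul_of_nonneg_left key (by norm_num)
    _ = 25 * η := by field_simp
    _ < ε := by rw [hη]; linarith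

end X77.RR
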