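import Pool.Agent.X77.RR.Ana
import Pool.Agent.TH296.KQ.Main

/-!
# Rates for the ratios of the numbers of polygons of given knot types
-/

set_option autoImplicit false

namespace X77.RR

open Finset Filter Topology TH966.KS KN KN.KQ

theorem ratio_eq (Q : List Dir → Prop) (hg : 0 < gr Q) {k : ℕ} (hk : 0 < yq Q k) :
    pq Q (2 * k + 2) / pq Q (2 * k) - gr Q ^ 2 = gr Q ^ 2 * (yq Q (k + 1) / yq Q k - 1) := by
  have h1 : pq Q (2 * k) = yq Q k * gr Q ^ (2 * k) := by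
    unfold yq
    rw [div_mul_cancel₀ _ (pow_pos hg _).ne']
  have h2 : pq Q (2 * k + 2) = yq Q (k + 1) * gr Q ^ (2 * k + 2) := by
    unfold yq
    rw [show 2 * (k + 1) = 2 * k + 2 by ring, div_mul_cancel₀ _ (pow_pos hg _).ne']
  rw [h1, h2]
  have h3 : 0 < gr Q ^ (2 * k) := pow_pos hg _
  rw [pow_add]
  field_simp

theorem ratio_abs (Q : List Dir → Prop) (hg : 0 < gr Q) (hg5 : gr Q ≤ 5) {k : ℕ}
    (hk : 0 < yq Q k) : |pq Q (2 * k + 2) / pq Q (2 * k) - gr Q ^ 2| ≤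
      25 * |yq Q (k + 1) / yq Q k - 1| := by
  rw [ratio_eq Q hg hk, abs_mul, abs_of_pos (pow_pos hg 2)]
  refine mul_le_mul_of_nonneg_right ?_ (abs_nonneg _)
  nlinarith

theorem yq_pos {Q : List Dir → Prop} (hQ : KClass Q) (hne : ∃ w, SAP w ∧ Q w) :
    ∀ᶠ k : ℕ in atTop, 0 < yq Q k := by
  obtain ⟨h1, -, -⟩ := gr_bounds Q hQ hne
  filter_upwards [class_pos Q hQ hne] with k hk
  exact div_pos hk (pow_pos (by linarith) _)

/-- the limit of the roots in terms of the normalised counts -/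
theorem log_of_root {Q : List Dir → Prop} (hQ : KClass Q) (hne : ∃ w, SAP w ∧ Q w)
    (h : ∃ L : ℝ, Tendsto (fun j : ℕ => (pq Q (2 * j)) ^ (1 / (2 * j : ℝ))) atTop (𝓝 L)) :
    Tendsto (fun k : ℕ => Real.log (yq Q k) / k) atTop (𝓝 0) := by
  obtain ⟨h1, -, -⟩ := gr_bounds Q hQ hne
  have hg : 0 < gr Q := by linarith
  obtain ⟨L, hL⟩ := h
  have hLg : gr Q = L := hL.limsup_eq
  rw [← hLg] at hL
  have h2 := (hL.log hg.ne').sub_const (Real.log (gr Q)) |>.const_mul 2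
  rw [sub_self, mul_zero] at h2
  refine h2.congr' ?_
  filter_upwards [class_pos Q hQ hne, eventually_gt_atTop 0] with k h3 h4
  have hkR : (0 : ℝ) < k := by exact_mod_cast h4
  unfold yq
  rw [Real.log_rpow h3, Real.log_div h3.ne' (pow_pos hg _).ne', Real.log_pow]
  push_cast
  field_simp

/-- classes with the growth rate of the unknot -/
theorem root_of_eq {Q : List Dir → Prop} (hQ : KClass Q) (hne : ∃ w, SAP w ∧ Q w)
    (he : gr Q = gr U) :
    ∃ L : ℝ, Tendsto (fun j : ℕ => (pq Q (2 * j)) ^ (1 / (2 * j : ℝ))) atTop (𝓝 L) := by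
  obtain ⟨h1, -, -⟩ := gr_bounds Q hQ hne
  have hg : 0 < gr Q := by linarith
  obtain ⟨μ, -, -, h3⟩ := mu0
  have hμ : gr U = μ := h3.limsup_eq
  rw [← hμ, ← he] at h3
  obtain ⟨c, hc, hcomp⟩ := class_low Q hQ hne
  refine ⟨gr Q, ?_⟩
  have hU : ∀ᶠ j : ℕ in atTop, 0 < pq U (2 * j) :=
    class_pos U (GEN.kt_class sq) ⟨sqw, ⟨by decide, by decide, by decide⟩, Or.inl (Same.refl _)⟩
  -- the logarithms
  have hlU : Tendsto (fun j : ℕ => Real.log (pq U (2 * j)) / (2 * j : ℝ)) atTop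
      (𝓝 (Real.log (gr Q))) := by
    refine (h3.log hg.ne').congr' ?_
    filter_upwards [hU] with j hj
    rw [Real.log_rpow hj]
    ring
  have hzero : ∀ x : ℝ, Tendsto (fun j : ℕ => x / (2 * j : ℝ)) atTop (𝓝 0) := by
    intro x
    have h4 : Tendsto (fun j : ℕ => (2 * j : ℝ)) atTop atTop :=
      Tendsto.const_mul_atTop (by norm_num) tendsto_natCast_atTop_atTop
    exact h4.const_div_atTop x
  have hlQ : Tendsto (fun j : ℕ => Real.log (pq Q (2 * j)) / (2 * j : ℝ)) atTop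
      (𝓝 (Real.log (gr Q))) := by
    rw [Metric.tendsto_atTop']
    intro ε hε
    obtain ⟨C, hC⟩ := pq_upper Q hg (ε / 4) (by positivity)
    have hlow : Tendsto (fun j : ℕ => Real.log c / (2 * j : ℝ) +
        Real.log (pq U (2 * j)) / (2 * j : ℝ)) atTop (𝓝 (Real.log (gr Q))) := by
      have := (hzero (Real.log c)).add hlU
      rwa [zero_add] at this
    have hup : Tendsto (fun j : ℕ => Real.log (max C 1) / (2 * j : ℝ) +
        Real.log ((1 + ε / 4) * gr Q)) atTop (𝓝 (Real.log ((1 + ε / 4) * gr Q))) := by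
      have := (hzero (Real.log (max C 1))).add_const (Real.log ((1 + ε / 4) * gr Q))
      rwa [zero_add] at this
    have e1 := hlow.eventually (lt_mem_nhds (show Real.log (gr Q) - ε < Real.log (gr Q) by
      linarith))
    have e2 := hup.eventually (gt_mem_nhds (show Real.log ((1 + ε / 4) * gr Q) <
      Real.log ((1 + ε / 4) * gr Q) + ε / 4 by linarith))
    obtain ⟨N, hN⟩ := eventually_atTop.1 (e1.and (e2.and (hU.and (hcomp.and
      ((class_pos Q hQ hne).and (eventually_gt_atTop 0))))))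
    refine ⟨N, fun j hj => ?_⟩
    obtain ⟨a1, a2, a3, a4, a5, a6⟩ := hN j hj.le
    have hjR : (0 : ℝ) < 2 * j := by
      have : (0 : ℝ) < j := by exact_mod_cast a6
      linarith
    rw [Real.dist_eq, abs_lt]
    constructor
    · have h5 : Real.log (c * pq U (2 * j)) ≤ Real.log (pq Q (2 * j)) :=
        Real.log_le_log (mul_pos hc a3) a4
      rw [Real.log_mul hc.ne' a3.ne'] at h5
      have h6 := div_le_div_of_nonneg_right h5 hjR.le
      rw [add_div] at h6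
      linarith
    · have h5 : pq Q (2 * j) ≤ max C 1 * ((1 + ε / 4) * gr Q) ^ (2 * j) :=
        (hC (2 * j)).trans (mul_le_mul_of_nonneg_right (le_max_left _ _) (by positivity))
      have h6 := Real.log_le_log a5 h5
      rw [Real.log_mul (by positivity) (by positivity), Real.log_pow] at h6
      have h7 := div_le_div_of_nonneg_right h6 hjR.le
      rw [add_div] at h7
      have h8 : ((2 * j : ℕ) : ℝ) * Real.log ((1 + ε / 4) * gr Q) / (2 * j : ℝ) =
          Real.log ((1 + ε / 4) * gr Q) := by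
        push_cast
        field_simp
      rw [h8] at h7
      have h9 : Real.log ((1 + ε / 4) * gr Q) ≤ ε / 4 + Real.log (gr Q) := by
        rw [Real.log_mul (by positivity) hg.ne']
        have := Real.log_le_sub_one_of_pos (show 0 < 1 + ε / 4 by positivity)
        linarith
      linarith
  have h4 := (Real.continuous_exp.tendsto _).comp hlQ
  rw [Real.exp_log hg] at h4
  refine h4.congr' ?_
  filter_upwards [class_pos Q hQ hne] with j hj
  rw [Real.rpow_def_of_pos hj]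
  simp only [Function.comp]
  congr 1
  ring

/-- the ratio limit and the variation -/
theorem root_all {Q : List Dir → Prop} (hQ : KClass Q) (hne : ∃ w, SAP w ∧ Q w)
    (h : ∃ L : ℝ, Tendsto (fun j : ℕ => (pq Q (2 * j)) ^ (1 / (2 * j : ℝ))) atTop (𝓝 L)) :
    Tendsto (fun j : ℕ => pq Q (2 * j + 2) / pq Q (2 * j)) atTop (𝓝 (gr Q ^ 2)) ∧
    ∃ D : ℝ, ∀ ε : ℝ, 0 < ε → ∃ N : ℕ, ∀ j k : ℕ, N ≤ j → j ≤ k →
      ∑ i ∈ Finset.Ico j k, |Real.log (pq Q (2 * i + 2) ^ 2 / (pq Q (2 * i) *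
        pq Q (2 * i + 4)))| ≤ ε + D * ((k : ℝ) - j) / j := by
  obtain ⟨h1, -, -⟩ := gr_bounds Q hQ hne
  have hg : 0 < gr Q := by linarith
  have hrat : Tendsto (fun j : ℕ => pq Q (2 * j + 2) / pq Q (2 * j)) atTop (𝓝 (gr Q ^ 2)) := by
    obtain ⟨L, hL⟩ := h
    have hLg : gr Q = L := hL.limsup_eq
    rw [← hLg] at hL
    exact GEN.ratio_of_root c_class S_five_proof Q (GEN.inv_of Q hQ) (gr Q) (by linarith) hL
  refine ⟨hrat, ?_⟩
  obtain ⟨D, θ, k0, hD, hθ0, hθ1, hK⟩ := kes_yq Q hQ hne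
  have hr : Tendsto (fun k : ℕ => yq Q (k + 1) / yq Q k) atTop (𝓝 1) := by
    have h2 := (hrat.sub_const (gr Q ^ 2)).div_const (gr Q ^ 2) |>.add_const 1
    rw [sub_self, zero_div, zero_add] at h2
    refine h2.congr' ?_
    filter_upwards [yq_pos hQ hne] with k hk
    rw [ratio_eq Q hg hk]
    field_simp
    ring
  refine ⟨2 * D, fun ε hε => ?_⟩
  obtain ⟨N, hN⟩ := variation hK hD hθ0 hθ1 (yq_pos hQ hne) (log_of_root hQ hne h) hr hε
  refine ⟨N, fun j k hj hjk => ?_⟩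
  refine le_trans (le_of_eq ?_) (hN j k hj hjk)
  refine Finset.sum_congr rfl fun i _ => ?_
  congr 2
  unfold yq
  rw [show 2 * (i + 1) = 2 * i + 2 by ring, show 2 * (i + 2) = 2 * i + 4 by ring]
  have e : gr Q ^ (2 * i + 2) * gr Q ^ (2 * i + 2) = gr Q ^ (2 * i) * gr Q ^ (2 * i + 4) := by
    rw [← pow_add, ← pow_add]; congr 1; ring
  have p1 : gr Q ^ (2 * i) ≠ 0 := (pow_pos hg _).ne'
  have p2 : gr Q ^ (2 * i + 2) ≠ 0 := (pow_pos hg _).ne'
  have p3 : gr Q ^ (2 * i + 4) ≠ 0 := (pow_pos hg _).ne'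
  rw [div_pow, div_mul_div_comm, pow_two (gr Q ^ (2 * i + 2)), e, div_div_div_cancel_right₀
    (mul_ne_zero p1 p3)]

/-- the local rate -/
theorem class_local {Q : List Dir → Prop} (hQ : KClass Q) (hne : ∃ w, SAP w ∧ Q w) :
    ∃ (R δ : ℝ) (N : ℕ), 0 < R ∧ 0 < δ ∧ ∀ k : ℕ, N ≤ k → ∀ E : ℝ, 1 ≤ E →
      E ≤ δ * k → Real.exp (-(δ * k)) ≤ yq Q k →
      (∀ i : ℕ, k ≤ 2 * i → i ≤ 2 * k → yq Q i ≤ Real.exp E * yq Q k) →
      |pq Q (2 * k + 2) / pq Q (2 * k) - gr Q ^ 2| ≤ R * √(E / k) := by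
  obtain ⟨h1, -, h5⟩ := gr_bounds Q hQ hne
  have hg : 0 < gr Q := by linarith
  obtain ⟨D, θ, k0, hD, hθ0, hθ1, hK⟩ := kes_yq Q hQ hne
  obtain ⟨R, δ, N, hR, hδ, h⟩ := local_rate hK (yq_nonneg Q hg.le) hD hθ0 hθ1
  refine ⟨25 * R, δ, N, by positivity, hδ, fun k hk E hE1 hE2 hyk hloc => ?_⟩
  have h2 := h k hk E hE1 hE2 hyk hloc
  have hyk0 : 0 < yq Q k := lt_of_lt_of_le (Real.exp_pos _) hyk
  refine (ratio_abs Q hg h5 hyk0).trans ?_
  rw [mul_assoc]
  exact mul_le_mul_of_nonneg_left h2 (by norm_num)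

/-- classes closed under connected sums -/
theorem class_rate {Q : List Dir → Prop} (hQ : KClass Q) (hne : ∃ w, SAP w ∧ Q w)
    (hc : CSum Q) : ∃ R : ℝ, ∀ᶠ k : ℕ in atTop,
      |pq Q (2 * k + 2) / pq Q (2 * k) - gr Q ^ 2| ≤
        R * √((1 + |Real.log ((k : ℝ) ^ (2 / 3 : ℝ) * (pq Q (2 * k) / gr Q ^ (2 * k)))|) / k) := by
  obtain ⟨h1, -, h5⟩ := gr_bounds Q hQ hne
  have hg : 0 < gr Q := by linarith
  obtain ⟨R, δ, N, hR, hδ, h⟩ := class_local hQ hne
  obtain ⟨⟨C, hC⟩, -, -⟩ := class_all hQ hc hne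
  have hlog := log_of_root hQ hne ⟨_, (class_sum Q hQ hne hc).1⟩
  set C' : ℝ := max C 1 with hC'
  have hC'1 : 1 ≤ C' := le_max_right _ _
  have hC'0 : 0 < C' := by linarith
  have hlC : 0 ≤ Real.log C' := Real.log_nonneg hC'1
  refine ⟨R * √(1 + Real.log C'), ?_⟩
  -- the error is small
  have hsm : Tendsto (fun k : ℕ => (1 + Real.log C') / (k : ℝ) +
      (2 / 3 * (Real.log k / k) + |Real.log (yq Q k) / k|)) atTop (𝓝 0) := by
    have a1 : Tendsto (fun k : ℕ => (1 + Real.log C') / (k : ℝ)) atTop (𝓝 0) :=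
      tendsto_const_div_atTop_nhds_zero_nat _
    have a2 := log_over.const_mul (2 / 3)
    rw [mul_zero] at a2
    have a3 := hlog.abs
    rw [abs_zero] at a3
    have := a1.add (a2.add a3)
    simpa using this
  obtain ⟨N2, hN2⟩ := eventually_atTop.1 (yq_pos hQ hne)
  filter_upwards [hsm.eventually_lt_const hδ, yq_pos hQ hne, eventually_ge_atTop (N + 1)]
    with k e1 e2 e3
  have hkR : (0 : ℝ) < k := by exact_mod_cast (show 0 < k by omega)
  have hk1 : (1 : ℝ) ≤ k := by exact_mod_cast (show 1 ≤ k by omega)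
  have hx : 0 < (k : ℝ) ^ (2 / 3 : ℝ) := Real.rpow_pos_of_pos hkR _
  have hyq : pq Q (2 * k) / gr Q ^ (2 * k) = yq Q k := rfl
  rw [hyq]
  set ℓ : ℝ := |Real.log ((k : ℝ) ^ (2 / 3 : ℝ) * yq Q k)| with hℓ
  have hℓ0 : 0 ≤ ℓ := abs_nonneg _
  have hℓb : ℓ ≤ 2 / 3 * Real.log k + |Real.log (yq Q k)| := by
    rw [hℓ, Real.log_mul hx.ne' e2.ne', Real.log_rpow hkR]
    refine (abs_add_le _ _).trans ?_
    have : 0 ≤ 2 / 3 * Real.log (k : ℝ) := mul_nonneg (by norm_num) (Real.log_nonneg hk1)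
    rw [abs_of_nonneg this]
  set E : ℝ := 1 + Real.log C' + ℓ with hE
  have hEδ : E ≤ δ * k := by
    have h2 : ((1 + Real.log C') / (k : ℝ) +
        (2 / 3 * (Real.log k / k) + |Real.log (yq Q k) / k|)) * k =
        1 + Real.log C' + (2 / 3 * Real.log k + |Real.log (yq Q k)|) := by
      rw [abs_div, abs_of_pos hkR]
      field_simp
    have h3 := mul_le_mul_of_nonneg_right e1.le hkR.le
    rw [h2] at h3
    linarith
  have hyk : Real.exp (-(δ * k)) ≤ yq Q k := by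
    rw [← Real.le_log_iff_exp_le e2]
    have h2 : |Real.log (yq Q k)| ≤ δ * k := by
      have h3 : |Real.log (yq Q k) / k| ≤ δ := by
        have a1 : 0 ≤ (1 + Real.log C') / (k : ℝ) := by positivity
        have a2 : 0 ≤ Real.log (k : ℝ) / k := div_nonneg (Real.log_nonneg hk1) hkR.le
        linarith
      rw [abs_div, abs_of_pos hkR, div_le_iff₀ hkR] at h3
      exact h3
    linarith [neg_abs_le (Real.log (yq Q k))]
  have hloc : ∀ i : ℕ, k ≤ 2 * i → i ≤ 2 * k → yq Q i ≤ Real.exp E * yq Q k := by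
    intro i hi1 _
    have hi0 : (0 : ℝ) < ((2 * i : ℕ) : ℝ) := by exact_mod_cast (show 0 < 2 * i by omega)
    have h2 := hC (2 * i) (by omega)
    have h3 : yq Q i ≤ C' * (k : ℝ) ^ (-(2 / 3) : ℝ) := by
      unfold yq
      rw [div_le_iff₀ (pow_pos hg _)]
      refine h2.trans (mul_le_mul_of_nonneg_right ?_ (pow_pos hg _).le)
      have h4 : ((2 * i : ℕ) : ℝ) ^ (-(2 / 3) : ℝ) ≤ (k : ℝ) ^ (-(2 / 3) : ℝ) :=
        Real.rpow_le_rpow_of_nonpos hkR (by exact_mod_cast hi1) (by norm_num)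
      exact mul_le_mul (le_max_left _ _) h4 (Real.rpow_pos_of_pos hi0 _).le hC'0.le
    refine h3.trans ?_
    have h4 : C' * (k : ℝ) ^ (-(2 / 3) : ℝ) =
        Real.exp (Real.log C' - Real.log ((k : ℝ) ^ (2 / 3 : ℝ) * yq Q k)) * yq Q k := by
      rw [Real.exp_sub, Real.exp_log hC'0, Real.exp_log (mul_pos hx e2), Real.rpow_neg hkR.le]
      field_simp
    rw [h4]
    refine mul_le_mul_of_nonneg_right (Real.exp_le_exp.2 ?_) e2.le
    have h5 := neg_abs_le (Real.log ((k : ℝ) ^ (2 / 3 : ℝ) * yq Q k))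
    rw [hE]
    linarith
  have h2 := h k (by omega) E (by rw [hE]; linarith) hEδ hyk hloc
  refine h2.trans ?_
  rw [mul_assoc, ← Real.sqrt_mul (by linarith)]
  refine mul_le_mul_of_nonneg_left (Real.sqrt_le_sqrt ?_) hR.le
  rw [← mul_div_assoc]
  refine div_le_div_of_nonneg_right ?_ hkR.le
  rw [hE]
  nlinarith

end X77.RR
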